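import Pool.Agent.NNr.R13_2_5_7.D0
import Pool.Agent.NNr.R13_2_5_7.D1
import Pool.Agent.NNe.Slots

set_option linter.all false
set_option maxRecDepth 1000000
namespace Pool.Agent.NNr.R13_2_5_7

open Pool.Agent.NNe

def wf0_0 : wfC (nat_lit 59) (nat_lit 5) C0_0 = true := by decide +kernel
def pl0_0 : plCk (nat_lit 59) (nat_lit 5) (nat_lit 13) (nat_lit 5) (nat_lit 0) (nat_lit 2) (nat_lit 12) (nat_lit 4) (nat_lit 0) nl0 CL0 = true := by decide +kernel
def st0_0_0 : starCk (nat_lit 59) (nat_lit 5) (nat_lit 1) (nat_lit 2) (nat_lit 7) (nat_lit 0) (nat_lit 256) C0_0 = true := by decide +kernel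
def sc0_0 : stCov (nat_lit 2) (nat_lit 0) (Rl.cons (nat_lit 0) (nat_lit 7) Rl.nil) C0_0 = true := by decide +kernel
def wf0_1 : wfC (nat_lit 59) (nat_lit 5) C0_1 = true := by decide +kernel
def pl0_1 : plCk (nat_lit 59) (nat_lit 5) (nat_lit 13) (nat_lit 5) (nat_lit 0) (nat_lit 2) (nat_lit 12) (nat_lit 4) (nat_lit 1) nl0 CL0 = true := by decide +kernel
def st0_1_0 : starCk (nat_lit 59) (nat_lit 5) (nat_lit 1) (nat_lit 2) (nat_lit 12) (nat_lit 15) (nat_lit 1) C0_1 = true := by decide +kernel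
def sc0_1 : stCov (nat_lit 0) (nat_lit 15) (Rl.cons (nat_lit 15) (nat_lit 12) Rl.nil) C0_1 = true := by decide +kernel
def wf0_2 : wfC (nat_lit 59) (nat_lit 5) C0_2 = true := by decide +kernel
def pl0_2 : plCk (nat_lit 59) (nat_lit 5) (nat_lit 13) (nat_lit 5) (nat_lit 0) (nat_lit 2) (nat_lit 12) (nat_lit 4) (nat_lit 2) nl0 CL0 = true := by decide +kernel
def st0_2_0 : starCk (nat_lit 59) (nat_lit 5) (nat_lit 1) (nat_lit 2) (nat_lit 17) (nat_lit 80) (nat_lit 256) C0_2 = true := by decide +kernel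
def sc0_2 : stCov (nat_lit 2) (nat_lit 80) (Rl.cons (nat_lit 80) (nat_lit 17) Rl.nil) C0_2 = true := by decide +kernel
def wf0_3 : wfC (nat_lit 59) (nat_lit 5) C0_3 = true := by decide +kernel
def pl0_3 : plCk (nat_lit 59) (nat_lit 5) (nat_lit 13) (nat_lit 5) (nat_lit 0) (nat_lit 2) (nat_lit 12) (nat_lit 4) (nat_lit 3) nl0 CL0 = true := by decide +kernel
def st0_3_0 : starCk (nat_lit 59) (nat_lit 5) (nat_lit 1) (nat_lit 2) (nat_lit 10) (nat_lit 75) (nat_lit 256) C0_3 = true := by decide +kernel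
def sc0_3 : stCov (nat_lit 2) (nat_lit 75) (Rl.cons (nat_lit 75) (nat_lit 10) Rl.nil) C0_3 = true := by decide +kernel
def wf0_4 : wfC (nat_lit 59) (nat_lit 5) C0_4 = true := by decide +kernel
def pl0_4 : plCk (nat_lit 59) (nat_lit 5) (nat_lit 13) (nat_lit 5) (nat_lit 0) (nat_lit 2) (nat_lit 12) (nat_lit 4) (nat_lit 4) nl0 CL0 = true := by decide +kernel
def st0_4_0 : starCk (nat_lit 59) (nat_lit 5) (nat_lit 1) (nat_lit 2) (nat_lit 10) (nat_lit 14) (nat_lit 1) C0_4 = true := by decide +kernel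
def sc0_4 : stCov (nat_lit 0) (nat_lit 14) (Rl.cons (nat_lit 14) (nat_lit 10) Rl.nil) C0_4 = true := by decide +kernel
def wf0_5 : wfC (nat_lit 59) (nat_lit 5) C0_5 = true := by decide +kernel
def pl0_5 : plCk (nat_lit 59) (nat_lit 5) (nat_lit 13) (nat_lit 5) (nat_lit 0) (nat_lit 2) (nat_lit 12) (nat_lit 4) (nat_lit 5) nl0 CL0 = true := by decide +kernel
def st0_5_0 : starCk (nat_lit 59) (nat_lit 5) (nat_lit 1) (nat_lit 2) (nat_lit 9) (nat_lit 21) (nat_lit 256) C0_5 = true := by decide +kernel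
def sc0_5 : stCov (nat_lit 2) (nat_lit 21) (Rl.cons (nat_lit 21) (nat_lit 9) Rl.nil) C0_5 = true := by decide +kernel
def wf0_6 : wfC (nat_lit 59) (nat_lit 5) C0_6 = true := by decide +kernel
def pl0_6 : plCk (nat_lit 59) (nat_lit 5) (nat_lit 13) (nat_lit 5) (nat_lit 0) (nat_lit 2) (nat_lit 12) (nat_lit 4) (nat_lit 6) nl0 CL0 = true := by decide +kernel
def st0_6_0 : starCk (nat_lit 59) (nat_lit 5) (nat_lit 1) (nat_lit 2) (nat_lit 9) (nat_lit 48) (nat_lit 256) C0_6 = true := by decide +kernel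
def sc0_6 : stCov (nat_lit 2) (nat_lit 48) (Rl.cons (nat_lit 48) (nat_lit 9) Rl.nil) C0_6 = true := by decide +kernel
def wf0_7 : wfC (nat_lit 59) (nat_lit 5) C0_7 = true := by decide +kernel
def pl0_7 : plCk (nat_lit 59) (nat_lit 5) (nat_lit 13) (nat_lit 5) (nat_lit 0) (nat_lit 2) (nat_lit 12) (nat_lit 4) (nat_lit 7) nl0 CL0 = true := by decide +kernel
def st0_7_0 : starCk (nat_lit 59) (nat_lit 5) (nat_lit 1) (nat_lit 2) (nat_lit 8) (nat_lit 17) (nat_lit 16) C0_7 = true := by decide +kernel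
def sc0_7 : stCov (nat_lit 1) (nat_lit 17) (Rl.cons (nat_lit 17) (nat_lit 8) Rl.nil) C0_7 = true := by decide +kernel
def wf0_8 : wfC (nat_lit 59) (nat_lit 5) C0_8 = true := by decide +kernel
def pl0_8 : plCk (nat_lit 59) (nat_lit 5) (nat_lit 13) (nat_lit 5) (nat_lit 0) (nat_lit 2) (nat_lit 12) (nat_lit 4) (nat_lit 8) nl0 CL0 = true := by decide +kernel
def st0_8_0 : starCk (nat_lit 59) (nat_lit 5) (nat_lit 1) (nat_lit 2) (nat_lit 77) (nat_lit 94) (nat_lit 4096) C0_8 = true := by decide +kernel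
def sc0_8 : stCov (nat_lit 3) (nat_lit 94) (Rl.cons (nat_lit 94) (nat_lit 77) Rl.nil) C0_8 = true := by decide +kernel
def wf0_9 : wfC (nat_lit 59) (nat_lit 5) C0_9 = true := by decide +kernel
def pl0_9 : plCk (nat_lit 59) (nat_lit 5) (nat_lit 13) (nat_lit 5) (nat_lit 0) (nat_lit 2) (nat_lit 12) (nat_lit 4) (nat_lit 9) nl0 CL0 = true := by decide +kernel
def st0_9_0 : starCk (nat_lit 59) (nat_lit 5) (nat_lit 1) (nat_lit 2) (nat_lit 29) (nat_lit 68) (nat_lit 16) C0_9 = true := by decide +kernel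
def sc0_9 : stCov (nat_lit 1) (nat_lit 68) (Rl.cons (nat_lit 68) (nat_lit 29) Rl.nil) C0_9 = true := by decide +kernel
def wf0_10 : wfC (nat_lit 59) (nat_lit 5) C0_10 = true := by decide +kernel
def pl0_10 : plCk (nat_lit 59) (nat_lit 5) (nat_lit 13) (nat_lit 5) (nat_lit 0) (nat_lit 2) (nat_lit 12) (nat_lit 4) (nat_lit 10) nl0 CL0 = true := by decide +kernel
def st0_10_0 : starCk (nat_lit 59) (nat_lit 5) (nat_lit 1) (nat_lit 2) (nat_lit 34) (nat_lit 69) (nat_lit 16) C0_10 = true := by decide +kernel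
def sc0_10 : stCov (nat_lit 1) (nat_lit 69) (Rl.cons (nat_lit 69) (nat_lit 34) Rl.nil) C0_10 = true := by decide +kernel
def wf0_11 : wfC (nat_lit 59) (nat_lit 5) C0_11 = true := by decide +kernel
def pl0_11 : plCk (nat_lit 59) (nat_lit 5) (nat_lit 13) (nat_lit 5) (nat_lit 0) (nat_lit 2) (nat_lit 12) (nat_lit 4) (nat_lit 11) nl0 CL0 = true := by decide +kernel
def st0_11_0 : starCk (nat_lit 59) (nat_lit 5) (nat_lit 1) (nat_lit 2) (nat_lit 38) (nat_lit 50) (nat_lit 4096) C0_11 = true := by decide +kernel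
def sc0_11 : stCov (nat_lit 3) (nat_lit 50) (Rl.cons (nat_lit 50) (nat_lit 38) Rl.nil) C0_11 = true := by decide +kernel
def ti0_0 : tileCk (nat_lit 59) (nat_lit 5) (nat_lit 2) (nat_lit 2) (nat_lit 155) (nat_lit 13) (nat_lit 12) ZL0_0 CL0 = true := by decide +kernel
def zl0_0 : zlOK (nat_lit 155) ZL0_0 = true := by decide +kernel
def tc0_0 : tiCov (nat_lit 1) (nat_lit 0) ZZ0 C0_0 = true := by decide +kernel
def tc0_1 : tiCov (nat_lit 1) (nat_lit 1) ZZ0 C0_1 = true := by decide +kernel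
def tc0_2 : tiCov (nat_lit 1) (nat_lit 2) ZZ0 C0_2 = true := by decide +kernel
def tc0_3 : tiCov (nat_lit 1) (nat_lit 3) ZZ0 C0_3 = true := by decide +kernel
def tc0_4 : tiCov (nat_lit 1) (nat_lit 4) ZZ0 C0_4 = true := by decide +kernel
def tc0_5 : tiCov (nat_lit 1) (nat_lit 5) ZZ0 C0_5 = true := by decide +kernel
def tc0_6 : tiCov (nat_lit 1) (nat_lit 6) ZZ0 C0_6 = true := by decide +kernel
def tc0_7 : tiCov (nat_lit 1) (nat_lit 7) ZZ0 C0_7 = true := by decide +kernel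
def tc0_8 : tiCov (nat_lit 1) (nat_lit 8) ZZ0 C0_8 = true := by decide +kernel
def tc0_9 : tiCov (nat_lit 1) (nat_lit 9) ZZ0 C0_9 = true := by decide +kernel
def tc0_10 : tiCov (nat_lit 1) (nat_lit 10) ZZ0 C0_10 = true := by decide +kernel
def tc0_11 : tiCov (nat_lit 1) (nat_lit 11) ZZ0 C0_11 = true := by decide +kernel
def wf1_0 : wfC (nat_lit 57) (nat_lit 11) C1_0 = true := by decide +kernel
def rf1_0 : rfCk (nat_lit 59) (nat_lit 5) (nat_lit 57) (nat_lit 11) (nat_lit 1) (nat_lit 262144) (nat_lit 0) TL1 CL0 CL1 = true := by decide +kernel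
def st1_0_0 : starCk (nat_lit 57) (nat_lit 11) (nat_lit 1) (nat_lit 5) (nat_lit 8) (nat_lit 0) (nat_lit 256) C1_0 = true := by decide +kernel
def sc1_0 : stCov (nat_lit 2) (nat_lit 0) (Rl.cons (nat_lit 0) (nat_lit 8) Rl.nil) C1_0 = true := by decide +kernel
def wf1_1 : wfC (nat_lit 57) (nat_lit 11) C1_1 = true := by decide +kernel
def rf1_1 : rfCk (nat_lit 59) (nat_lit 5) (nat_lit 57) (nat_lit 11) (nat_lit 1) (nat_lit 262144) (nat_lit 1) TL1 CL0 CL1 = true := by decide +kernel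
def st1_1_0 : starCk (nat_lit 57) (nat_lit 11) (nat_lit 1) (nat_lit 5) (nat_lit 36) (nat_lit 48) (nat_lit 1) C1_1 = true := by decide +kernel
def sc1_1 : stCov (nat_lit 0) (nat_lit 48) (Rl.cons (nat_lit 48) (nat_lit 36) Rl.nil) C1_1 = true := by decide +kernel
def wf1_2 : wfC (nat_lit 57) (nat_lit 11) C1_2 = true := by decide +kernel
def rf1_2 : rfCk (nat_lit 59) (nat_lit 5) (nat_lit 57) (nat_lit 11) (nat_lit 1) (nat_lit 262144) (nat_lit 2) TL1 CL0 CL1 = true := by decide +kernel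
def st1_2_0 : starCk (nat_lit 57) (nat_lit 11) (nat_lit 1) (nat_lit 5) (nat_lit 24) (nat_lit 241) (nat_lit 256) C1_2 = true := by decide +kernel
def sc1_2 : stCov (nat_lit 2) (nat_lit 241) (Rl.cons (nat_lit 241) (nat_lit 24) Rl.nil) C1_2 = true := by decide +kernel
def wf1_3 : wfC (nat_lit 57) (nat_lit 11) C1_3 = true := by decide +kernel
def rf1_3 : rfCk (nat_lit 59) (nat_lit 5) (nat_lit 57) (nat_lit 11) (nat_lit 1) (nat_lit 262144) (nat_lit 3) TL1 CL0 CL1 = true := by decide +kernel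
def st1_3_0 : starCk (nat_lit 57) (nat_lit 11) (nat_lit 1) (nat_lit 5) (nat_lit 16) (nat_lit 216) (nat_lit 256) C1_3 = true := by decide +kernel
def sc1_3 : stCov (nat_lit 2) (nat_lit 216) (Rl.cons (nat_lit 216) (nat_lit 16) Rl.nil) C1_3 = true := by decide +kernel
def wf1_4 : wfC (nat_lit 57) (nat_lit 11) C1_4 = true := by decide +kernel
def rf1_4 : rfCk (nat_lit 59) (nat_lit 5) (nat_lit 57) (nat_lit 11) (nat_lit 1) (nat_lit 262144) (nat_lit 4) TL1 CL0 CL1 = true := by decide +kernel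
def st1_4_0 : starCk (nat_lit 57) (nat_lit 11) (nat_lit 1) (nat_lit 5) (nat_lit 36) (nat_lit 48) (nat_lit 1) C1_4 = true := by decide +kernel
def sc1_4 : stCov (nat_lit 0) (nat_lit 48) (Rl.cons (nat_lit 48) (nat_lit 36) Rl.nil) C1_4 = true := by decide +kernel
def wf1_5 : wfC (nat_lit 57) (nat_lit 11) C1_5 = true := by decide +kernel
def rf1_5 : rfCk (nat_lit 59) (nat_lit 5) (nat_lit 57) (nat_lit 11) (nat_lit 1) (nat_lit 262144) (nat_lit 5) TL1 CL0 CL1 = true := by decide +kernel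
def st1_5_0 : starCk (nat_lit 57) (nat_lit 11) (nat_lit 1) (nat_lit 5) (nat_lit 8) (nat_lit 48) (nat_lit 256) C1_5 = true := by decide +kernel
def sc1_5 : stCov (nat_lit 2) (nat_lit 48) (Rl.cons (nat_lit 48) (nat_lit 8) Rl.nil) C1_5 = true := by decide +kernel
def wf1_6 : wfC (nat_lit 57) (nat_lit 11) C1_6 = true := by decide +kernel
def rf1_6 : rfCk (nat_lit 59) (nat_lit 5) (nat_lit 57) (nat_lit 11) (nat_lit 1) (nat_lit 262144) (nat_lit 6) TL1 CL0 CL1 = true := by decide +kernel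
def st1_6_0 : starCk (nat_lit 57) (nat_lit 11) (nat_lit 1) (nat_lit 5) (nat_lit 5) (nat_lit 87) (nat_lit 256) C1_6 = true := by decide +kernel
def sc1_6 : stCov (nat_lit 2) (nat_lit 87) (Rl.cons (nat_lit 87) (nat_lit 5) Rl.nil) C1_6 = true := by decide +kernel
def wf1_8 : wfC (nat_lit 57) (nat_lit 11) C1_8 = true := by decide +kernel
def rf1_8 : rfCk (nat_lit 59) (nat_lit 5) (nat_lit 57) (nat_lit 11) (nat_lit 1) (nat_lit 262144) (nat_lit 8) TL1 CL0 CL1 = true := by decide +kernel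
def st1_8_0 : starCk (nat_lit 57) (nat_lit 11) (nat_lit 1) (nat_lit 5) (nat_lit 222) (nat_lit 262) (nat_lit 4096) C1_8 = true := by decide +kernel
def sc1_8 : stCov (nat_lit 3) (nat_lit 262) (Rl.cons (nat_lit 262) (nat_lit 222) Rl.nil) C1_8 = true := by decide +kernel
def wf1_9 : wfC (nat_lit 57) (nat_lit 11) C1_9 = true := by decide +kernel
def rf1_9 : rfCk (nat_lit 59) (nat_lit 5) (nat_lit 57) (nat_lit 11) (nat_lit 1) (nat_lit 262144) (nat_lit 9) TL1 CL0 CL1 = true := by decide +kernel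
def st1_9_0 : starCk (nat_lit 57) (nat_lit 11) (nat_lit 1) (nat_lit 5) (nat_lit 100) (nat_lit 236) (nat_lit 16) C1_9 = true := by decide +kernel
def sc1_9 : stCov (nat_lit 1) (nat_lit 236) (Rl.cons (nat_lit 236) (nat_lit 100) Rl.nil) C1_9 = true := by decide +kernel
def wf1_10 : wfC (nat_lit 57) (nat_lit 11) C1_10 = true := by decide +kernel
def rf1_10 : rfCk (nat_lit 59) (nat_lit 5) (nat_lit 57) (nat_lit 11) (nat_lit 1) (nat_lit 262144) (nat_lit 10) TL1 CL0 CL1 = true := by decide +kernel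
def st1_10_0 : starCk (nat_lit 57) (nat_lit 11) (nat_lit 1) (nat_lit 5) (nat_lit 112) (nat_lit 244) (nat_lit 16) C1_10 = true := by decide +kernel
def sc1_10 : stCov (nat_lit 1) (nat_lit 244) (Rl.cons (nat_lit 244) (nat_lit 112) Rl.nil) C1_10 = true := by decide +kernel
def wf1_11 : wfC (nat_lit 57) (nat_lit 11) C1_11 = true := by decide +kernel
def rf1_11 : rfCk (nat_lit 59) (nat_lit 5) (nat_lit 57) (nat_lit 11) (nat_lit 1) (nat_lit 262144) (nat_lit 11) TL1 CL0 CL1 = true := by decide +kernel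
def st1_11_0 : starCk (nat_lit 57) (nat_lit 11) (nat_lit 1) (nat_lit 5) (nat_lit 116) (nat_lit 164) (nat_lit 4096) C1_11 = true := by decide +kernel
def sc1_11 : stCov (nat_lit 3) (nat_lit 164) (Rl.cons (nat_lit 164) (nat_lit 116) Rl.nil) C1_11 = true := by decide +kernel

end Pool.Agent.NNr.R13_2_5_7
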